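import Pool.Agent.N516.SC.Stm

/-!
# Project SC (helper516): `glue D` has no small cuts
-/

set_option autoImplicit false

namespace Pool.Agent.N72.SC

open Pool.Agent.N516.SC

/-! ### Finite checks -/

/-- mismatch -/
def mm (a b : Bool) : ℕ := if a = b then 0 else 1

theorem chkA : ∀ s0 s1 s2 h c0 c1 c2 a00 a01 a10 a11 a20 a21 : Bool,
    (mm c0 h + mm c1 h + mm c2 h) +
      (mm c0 a00 + mm c0 a01 + mm c1 a10 + mm c1 a11 + mm c2 a20 + mm c2 a21) +
      (mm a00 s1 + mm a01 s1 + mm a10 s2 + mm a11 s2 + mm a20 s0 + mm a21 s0) +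
      (mm a00 s2 + mm a01 s2 + mm a10 s0 + mm a11 s0 + mm a20 s1 + mm a21 s1) ≤ 3 →
    ∃ b : Bool, s0 = b ∧ s1 = b ∧ s2 = b ∧ mm h b + (mm c0 b + mm c1 b + mm c2 b) +
      (mm a00 b + mm a01 b + mm a10 b + mm a11 b + mm a20 b + mm a21 b) ≤ 1 := by
  decide +kernel

theorem chkB : ∀ s1 s2 h c0 c1 c2 a00 a01 a10 a11 a20 a21 : Bool,
    (mm c0 h + mm c1 h + mm c2 h) +
      (mm c0 a00 + mm c0 a01 + mm c1 a10 + mm c1 a11 + mm c2 a20 + mm c2 a21) +
      (mm a00 s1 + mm a01 s1 + mm a10 s2 + mm a11 s2) +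
      (mm a00 s2 + mm a01 s2 + mm a20 s1 + mm a21 s1) ≤ 1 →
    mm s1 h + mm s2 h + (mm c0 h + mm c1 h + mm c2 h) +
      (mm a00 h + mm a01 h + mm a10 h + mm a11 h + mm a20 h + mm a21 h) = 0 := by
  decide +kernel

theorem mm_zero {a b : Bool} (h : mm a b = 0) : a = b := by
  unfold mm at h
  by_contra hne
  rw [if_neg hne] at h
  omega

theorem mm_self (a : Bool) : mm a a = 0 := if_pos rfl

theorem mm_tf (a : Bool) : mm a true + mm a false = 1 := by cases a <;> rfl

theorem mm_comm (a b : Bool) : mm a b = mm b a := by cases a <;> cases b <;> rfl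

/-! ### Sums -/

theorem two_le {α : Type} [Fintype α] (F : α → ℕ) {a b : α} (h : a ≠ b) :
    F a + F b ≤ ∑ x, F x := by
  classical
  rw [← Finset.sum_pair h]
  exact Finset.sum_le_sum_of_subset (Finset.subset_univ _)

theorem one_le {α : Type} [Fintype α] (F : α → ℕ) (a : α) : F a ≤ ∑ x, F x :=
  Finset.single_le_sum (fun _ _ => Nat.zero_le _) (Finset.mem_univ a)

theorem inj_le {α β : Type} [Fintype α] [Fintype β] (e : α → β) (he : Function.Injective e)
    (F : β → ℕ) : ∑ x, F (e x) ≤ ∑ y, F y := by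
  have h := Finset.sum_map Finset.univ ⟨e, he⟩ F
  simp only [Function.Embedding.coeFn_mk] at h
  rw [← h]
  exact Finset.sum_le_sum_of_subset (Finset.subset_univ _)

theorem sum3 (F : Fin 3 → ℕ) (i : Fin 3) : ∑ j, F j = F i + F (i + 1) + F (i + 2) := by
  rw [Fin.sum_univ_three]
  fin_cases i
  · rfl
  · show F 0 + F 1 + F 2 = F 1 + F 2 + F 0
    ring
  · show F 0 + F 1 + F 2 = F 2 + F 0 + F 1
    ring

theorem sum_V (R : Pool.Agent.N516.SC.Pointed) (F : R.V → ℕ) :
    ∑ v, F v = ∑ v : Inner R, F v.1 + (F R.x + F R.y) := by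
  classical
  have hxy : R.x ≠ R.y := ((R.adj_x _).2 (Or.inl rfl)).ne
  rw [← Finset.sum_filter_add_sum_filter_not Finset.univ (fun v => v ≠ R.x ∧ v ≠ R.y)]
  congr 1
  · exact Finset.sum_subtype _ (fun v => by simp) F
  · rw [← Finset.sum_pair hxy]
    refine Finset.sum_congr ?_ (fun _ _ => rfl)
    ext v
    simp only [Finset.mem_filter, Finset.mem_univ, true_and, Finset.mem_insert,
      Finset.mem_singleton]
    tauto

/-- the edges between the new vertices -/
def phi : (Fin 3 ⊕ Fin 3 × Fin 2) × Bool → Ctr × Ctr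
  | (.inl i, true) => (some (i, none), none)
  | (.inl i, false) => (none, some (i, none))
  | (.inr p, true) => (some (p.1, none), some (p.1, some p.2))
  | (.inr p, false) => (some (p.1, some p.2), some (p.1, none))

theorem phi_inj : Function.Injective phi := by
  unfold Function.Injective
  decide +kernel

/-! ### Cuts -/

open Classical in
/-- indicator -/
noncomputable def ind {V : Type} (G : SimpleGraph V) (f : V → Bool) (v w : V) : ℕ :=
  if f v = true ∧ f w = false ∧ G.Adj v w then 1 else 0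

theorem cut_eq {V : Type} [Fintype V] (G : SimpleGraph V) (f : V → Bool) :
    cut G f = ∑ v, ∑ w, ind G f v w := rfl

theorem ind_adj {V : Type} {G : SimpleGraph V} (f : V → Bool) {v w : V} (h : G.Adj v w) :
    ind G f v w + ind G f w v = mm (f v) (f w) := by
  unfold ind mm
  have h' := h.symm
  cases f v <;> cases f w <;> simp [h, h']

theorem ind_nadj {V : Type} {G : SimpleGraph V} (f : V → Bool) {v w : V} (h : ¬ G.Adj v w) :
    ind G f v w + ind G f w v = 0 := by
  unfold ind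
  have h' : ¬ G.Adj w v := fun h' => h h'.symm
  simp [h, h']

theorem ind_eq {V : Type} {G : SimpleGraph V} (f : V → Bool) {v w : V} (h : f v = f w) :
    ind G f v w = 0 := by
  unfold ind
  rw [if_neg]
  rintro ⟨h1, h2, -⟩
  rw [h1, h2] at h
  exact absurd h (by decide)

theorem ind_congr {V V' : Type} {G : SimpleGraph V} {G' : SimpleGraph V'} {f : V → Bool}
    {f' : V' → Bool} {v w : V} {v' w' : V'} (h1 : f v = f' v') (h2 : f w = f' w')
    (h : G.Adj v w ↔ G'.Adj v' w') : ind G f v w = ind G' f' v' w' := by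
  unfold ind
  rw [h1, h2]
  by_cases h' : G.Adj v w
  · simp [h', h.1 h']
  · simp [h', mt h.2 h']

theorem ind_one {V : Type} {G : SimpleGraph V} {f : V → Bool} {v w : V} (h1 : f v = true)
    (h2 : f w = false) (h : G.Adj v w) : ind G f v w = 1 := if_pos ⟨h1, h2, h⟩

section
variable (D : Fin 3 → Pool.Agent.N516.SC.Pointed) (f : W D → Bool)

/-- the part of the cut in a copy -/
noncomputable def dd (i : Fin 3) : ℕ :=
  ∑ v : Inner (D i), ∑ w : Inner (D i), ind (glue D) f (.inl ⟨i, v⟩) (.inl ⟨i, w⟩)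

theorem cut_ge (h : S_NB) : ∑ i, dd D f i +
    (∑ i, mm (f (ce D i)) (f (hu D)) + ∑ i, ∑ t, mm (f (ce D i)) (f (ar D i t))) +
      ∑ i, ∑ t, (mm (f (ar D i t)) (f (px D (i + 1) t)) +
        mm (f (ar D i t)) (f (qx D (i - 1) t))) ≤ cut (glue D) f := by
  obtain ⟨hh, hc, ha, hi, -⟩ := h D
  rw [cut_eq, Fintype.sum_sum_type]
  simp only [Fintype.sum_sum_type]
  rw [Finset.sum_add_distrib, Finset.sum_add_distrib]
  have b1 : ∑ i, dd D f i ≤ ∑ v : (Σ i, Inner (D i)), ∑ w : (Σ i, Inner (D i)),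
      ind (glue D) f (.inl v) (.inl w) := by
    rw [Fintype.sum_sigma]
    refine Finset.sum_le_sum fun i _ => ?_
    unfold dd
    refine Finset.sum_le_sum fun v _ => ?_
    rw [Fintype.sum_sigma]
    exact one_le (fun j => ∑ w : Inner (D j), ind (glue D) f (.inl ⟨i, v⟩) (.inl ⟨j, w⟩)) i
  have b23 : ∑ i, ∑ t, (mm (f (ar D i t)) (f (px D (i + 1) t)) +
        mm (f (ar D i t)) (f (qx D (i - 1) t))) ≤
      ∑ v : (Σ i, Inner (D i)), ∑ c : Ctr, ind (glue D) f (.inl v) (.inr c) +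
        ∑ c : Ctr, ∑ v : (Σ i, Inner (D i)), ind (glue D) f (.inr c) (.inl v) := by
    have hcomm : ∑ v : (Σ i, Inner (D i)), ∑ c : Ctr, ind (glue D) f (.inl v) (.inr c) =
        ∑ c : Ctr, ∑ v : (Σ i, Inner (D i)), ind (glue D) f (.inl v) (.inr c) :=
      Finset.sum_comm
    rw [hcomm, ← Finset.sum_add_distrib]
    refine le_trans ?_ (inj_le (fun p : Fin 3 × Fin 2 => (some (p.1, some p.2) : Ctr))
      (by decide +kernel) _)
    rw [Fintype.sum_prod_type]
    refine Finset.sum_le_sum fun i _ => Finset.sum_le_sum fun t _ => ?_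
    rw [← Finset.sum_add_distrib]
    obtain ⟨P, hP, hP1⟩ : ∃ P : (Σ i, Inner (D i)), px D (i + 1) t = .inl P ∧ P.1 = i + 1 :=
      ⟨_, rfl, rfl⟩
    obtain ⟨Q, hQ, hQ1⟩ : ∃ Q : (Σ i, Inner (D i)), qx D (i - 1) t = .inl Q ∧ Q.1 = i - 1 :=
      ⟨_, rfl, rfl⟩
    have e1 := ind_adj f ((ha i t (px D (i + 1) t)).2 (Or.inr (Or.inl rfl)))
    have e2 := ind_adj f ((ha i t (qx D (i - 1) t)).2 (Or.inr (Or.inr rfl)))
    rw [← e1, ← e2, hP, hQ]
    have hPQ : P ≠ Q := by
      intro e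
      rw [e, hQ1] at hP1
      revert hP1
      fin_cases i <;> decide
    have e3 := two_le (fun v : (Σ i, Inner (D i)) => ind (glue D) f (.inl v) (ar D i t) +
      ind (glue D) f (ar D i t) (.inl v)) hPQ
    refine le_trans (le_of_eq ?_) e3
    ring
  have b4 : ∑ i, mm (f (ce D i)) (f (hu D)) + ∑ i, ∑ t, mm (f (ce D i)) (f (ar D i t)) ≤
      ∑ c : Ctr, ∑ c' : Ctr, ind (glue D) f (.inr c) (.inr c') := by
    have hprod : ∑ c : Ctr, ∑ c' : Ctr, ind (glue D) f (.inr c) (.inr c') =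
        ∑ x : Ctr × Ctr, ind (glue D) f (.inr x.1) (.inr x.2) := by
      rw [Fintype.sum_prod_type]
    rw [hprod]
    refine le_trans ?_ (inj_le phi phi_inj
      (fun x : Ctr × Ctr => ind (glue D) f (.inr x.1) (.inr x.2)))
    rw [Fintype.sum_prod_type, Fintype.sum_sum_type]
    simp only [Fintype.sum_bool]
    refine add_le_add (Finset.sum_le_sum fun i _ => le_of_eq ?_) ?_
    · exact (ind_adj f ((hc i (hu D)).2 (Or.inl rfl))).symm
    · rw [Fintype.sum_prod_type]
      refine Finset.sum_le_sum fun i _ => Finset.sum_le_sum fun t _ => le_of_eq ?_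
      refine (ind_adj f ((hc i (ar D i t)).2 (Or.inr ?_))).symm
      fin_cases t
      · exact Or.inl rfl
      · exact Or.inr rfl
  omega

/-- the function on a copy -/
def gg (i : Fin 3) (r : Bool) : (D i).V → Bool := fun v =>
  if h : v ≠ (D i).x ∧ v ≠ (D i).y then f (.inl ⟨i, ⟨v, h⟩⟩) else r

theorem gg_in (i : Fin 3) (r : Bool) (v : Inner (D i)) : gg D f i r v.1 = f (.inl ⟨i, v⟩) := by
  unfold gg
  rw [dif_pos v.2]

theorem gg_x (i : Fin 3) (r : Bool) : gg D f i r (D i).x = r := by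
  unfold gg
  rw [dif_neg (fun h => h.1 rfl)]

theorem gg_y (i : Fin 3) (r : Bool) : gg D f i r (D i).y = r := by
  unfold gg
  rw [dif_neg (fun h => h.2 rfl)]

end

/-- the edges at `x` or `y` -/
theorem side (R : Pool.Agent.N516.SC.Pointed) (z : R.V) (n : Fin 2 → Inner R)
    (hadj : ∀ v : Inner R, R.G.Adj z v.1 → ∃ t, v = n t) (g : R.V → Bool) :
    ∑ v : Inner R, (ind R.G g v.1 z + ind R.G g z v.1) ≤ ∑ t, mm (g (n t).1) (g z) := by
  classical
  have h1 : ∀ v : Inner R, ind R.G g v.1 z + ind R.G g z v.1 ≤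
      ∑ t, if n t = v then mm (g (n t).1) (g z) else 0 := by
    intro v
    by_cases h : R.G.Adj z v.1
    · rw [ind_adj g h.symm]
      obtain ⟨t, rfl⟩ := hadj v h
      refine le_trans (le_of_eq ?_) (one_le _ t)
      rw [if_pos rfl]
    · rw [ind_nadj g (fun h' => h h'.symm)]
      exact Nat.zero_le _
  refine (Finset.sum_le_sum fun v _ => h1 v).trans ?_
  rw [Finset.sum_comm]
  refine Finset.sum_le_sum fun t _ => ?_
  rw [Finset.sum_ite_eq, if_pos (Finset.mem_univ _)]

section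
variable (D : Fin 3 → Pool.Agent.N516.SC.Pointed) (f : W D → Bool)

theorem gg_le (h : S_NB) (i : Fin 3) (r : Bool) : cut (D i).G (gg D f i r) ≤
    dd D f i + ∑ t, (mm (f (px D i t)) r + mm (f (qx D i t)) r) := by
  have hi := (h D).2.2.2.1
  rw [cut_eq, sum_V]
  simp only [sum_V, Finset.sum_add_distrib]
  have hx := gg_x D f i r
  have hy := gg_y D f i r
  have z1 : ind (D i).G (gg D f i r) (D i).x (D i).x = 0 := ind_eq _ rfl
  have z2 : ind (D i).G (gg D f i r) (D i).x (D i).y = 0 := ind_eq _ (hx.trans hy.symm)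
  have z3 : ind (D i).G (gg D f i r) (D i).y (D i).x = 0 := ind_eq _ (hy.trans hx.symm)
  have z4 : ind (D i).G (gg D f i r) (D i).y (D i).y = 0 := ind_eq _ rfl
  have e1 : ∑ v : Inner (D i), ∑ w : Inner (D i), ind (D i).G (gg D f i r) v.1 w.1 =
      dd D f i := by
    unfold dd
    refine Finset.sum_congr rfl fun v _ => Finset.sum_congr rfl fun w _ => ?_
    exact ind_congr (gg_in D f i r v) (gg_in D f i r w) (hi i v w).symm
  have s1 := side (D i) (D i).x (fun t => ⟨(D i).p t, by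
    have h : (D i).G.Adj (D i).x ((D i).p t) := by
      rw [(D i).adj_x]; fin_cases t <;> simp
    exact h.ne.symm, (D i).p_ne_y t⟩) (by
      intro v hv
      rcases ((D i).adj_x v.1).1 hv with h1 | h1 | h1
      · exact absurd h1 v.2.2
      · exact ⟨0, Subtype.ext h1⟩
      · exact ⟨1, Subtype.ext h1⟩) (gg D f i r)
  have s2 := side (D i) (D i).y (fun t => ⟨(D i).q t, (D i).q_ne_x t, by
    have h : (D i).G.Adj (D i).y ((D i).q t) := by
      rw [(D i).adj_y]; fin_cases t <;> simp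
    exact h.ne.symm⟩) (by
      intro v hv
      rcases ((D i).adj_y v.1).1 hv with h1 | h1 | h1
      · exact absurd h1 v.2.1
      · exact ⟨0, Subtype.ext h1⟩
      · exact ⟨1, Subtype.ext h1⟩) (gg D f i r)
  rw [hx] at s1
  rw [hy] at s2
  have hpx : ∀ t, gg D f i r ((D i).p t) = f (px D i t) := fun t => gg_in D f i r ⟨_, _⟩
  have hqx : ∀ t, gg D f i r ((D i).q t) = f (qx D i t) := fun t => gg_in D f i r ⟨_, _⟩
  simp only [hpx] at s1
  simp only [hqx] at s2
  rw [Finset.sum_add_distrib] at s1 s2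
  rw [z1, z2, z3, z4, e1]
  omega

end

/-- two inner neighbours -/
theorem inner_nb (R : Pool.Agent.N516.SC.Pointed) (hc : IsCubic R.G) (h3 : NoC3 R.G) (v : Inner R) :
    ∃ w1 w2 : Inner R, w1 ≠ w2 ∧ R.G.Adj v.1 w1.1 ∧ R.G.Adj v.1 w2.1 := by
  obtain ⟨a, b, c, hab, hac, hbc, hs⟩ := Set.ncard_eq_three.1 (hc v.1)
  have hxy : R.G.Adj R.x R.y := (R.adj_x _).2 (Or.inl rfl)
  have ha : R.G.Adj v.1 a := by
    have : a ∈ R.G.neighborSet v.1 := by rw [hs]; simp
    exact this
  have hb : R.G.Adj v.1 b := by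
    have : b ∈ R.G.neighborSet v.1 := by rw [hs]; simp
    exact this
  have hc' : R.G.Adj v.1 c := by
    have : c ∈ R.G.neighborSet v.1 := by rw [hs]; simp
    exact this
  -- two of the three are different from `z`
  have key : ∀ z : R.V, ∃ w1 w2 : R.V, w1 ≠ w2 ∧ R.G.Adj v.1 w1 ∧ R.G.Adj v.1 w2 ∧ w1 ≠ z ∧
      w2 ≠ z := by
    intro z
    by_cases h1 : a = z
    · exact ⟨b, c, hbc, hb, hc', fun h => hab (h1.trans h.symm), fun h => hac (h1.trans h.symm)⟩
    · by_cases h2 : b = z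
      · exact ⟨a, c, hac, ha, hc', h1, fun h => hbc (h2.trans h.symm)⟩
      · exact ⟨a, b, hab, ha, hb, h1, h2⟩
  by_cases hx : R.G.Adj v.1 R.x
  · have hy : ¬ R.G.Adj v.1 R.y := h3 v.1 R.x R.y hx hxy
    obtain ⟨w1, w2, hne, h1, h2, h4, h5⟩ := key R.x
    exact ⟨⟨w1, h4, fun h => hy (h ▸ h1)⟩, ⟨w2, h5, fun h => hy (h ▸ h2)⟩,
      fun h => hne (congrArg Subtype.val h), h1, h2⟩
  · obtain ⟨w1, w2, hne, h1, h2, h4, h5⟩ := key R.y
    exact ⟨⟨w1, fun h => hx (h ▸ h1), h4⟩, ⟨w2, fun h => hx (h ▸ h2), h5⟩,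
      fun h => hne (congrArg Subtype.val h), h1, h2⟩

section
variable (D : Fin 3 → Pool.Agent.N516.SC.Pointed) (f : W D → Bool)

/-- one vertex has a value different from all the others -/
theorem single (h : S_NB) (i : Fin 3) (hN : Nice (D i).G) (v0 : Inner (D i))
    (hall : ∀ w : Inner (D i), w ≠ v0 → f (.inl ⟨i, w⟩) = !(f (.inl ⟨i, v0⟩))) :
    2 ≤ dd D f i := by
  have hi := (h D).2.2.2.1
  obtain ⟨w1, w2, hne, h1, h2⟩ := inner_nb (D i) hN.cubic hN.c3 v0
  have n1 : w1 ≠ v0 := fun e => h1.ne (congrArg Subtype.val e).symm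
  have n2 : w2 ≠ v0 := fun e => h2.ne (congrArg Subtype.val e).symm
  have f1 := hall w1 n1
  have f2 := hall w2 n2
  have g1 := (hi i v0 w1).2 h1
  have g2 := (hi i v0 w2).2 h2
  unfold dd
  cases hv : f (.inl ⟨i, v0⟩) with
  | true =>
    rw [hv] at f1 f2
    have e1 := one_le (fun v : Inner (D i) => ∑ w : Inner (D i),
      ind (glue D) f (.inl ⟨i, v⟩) (.inl ⟨i, w⟩)) v0
    have e2 := two_le (fun w : Inner (D i) => ind (glue D) f (.inl ⟨i, v0⟩) (.inl ⟨i, w⟩)) hne
    beta_reduce at e1 e2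
    rw [ind_one hv f1 g1, ind_one hv f2 g2] at e2
    omega
  | false =>
    rw [hv] at f1 f2
    rw [Finset.sum_comm]
    have e1 := one_le (fun v : Inner (D i) => ∑ w : Inner (D i),
      ind (glue D) f (.inl ⟨i, w⟩) (.inl ⟨i, v⟩)) v0
    have e2 := two_le (fun w : Inner (D i) => ind (glue D) f (.inl ⟨i, w⟩) (.inl ⟨i, v0⟩)) hne
    beta_reduce at e1 e2
    rw [ind_one f1 hv g1.symm, ind_one f2 hv g2.symm] at e2
    omega

/-- a copy is mixed -/
def Mix (i : Fin 3) : Prop :=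
  ∃ v w : Inner (D i), f (.inl ⟨i, v⟩) = true ∧ f (.inl ⟨i, w⟩) = false

theorem mix_two (h : S_NB) (i : Fin 3) (hN : Nice (D i).G) (hm : Mix D f i) :
    2 ≤ dd D f i := by
  obtain ⟨v, w, hv, hw⟩ := hm
  have hxy : (D i).x ≠ (D i).y := (((D i).adj_x _).2 (Or.inl rfl)).ne
  by_cases hT : ∃ v v' : Inner (D i), v ≠ v' ∧ f (.inl ⟨i, v⟩) = true ∧ f (.inl ⟨i, v'⟩) = true
  · by_cases hF : ∃ v v' : Inner (D i), v ≠ v' ∧ f (.inl ⟨i, v⟩) = false ∧
      f (.inl ⟨i, v'⟩) = false
    · obtain ⟨a, a', ha, ha1, ha2⟩ := hT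
      obtain ⟨b, b', hb, hb1, hb2⟩ := hF
      have c1 := hN.cut4 (gg D f i true) ⟨(D i).x, (D i).y, hxy, gg_x D f i true, gg_y D f i true⟩
        ⟨b.1, b'.1, fun e => hb (Subtype.ext e), by rw [gg_in]; exact hb1,
          by rw [gg_in]; exact hb2⟩
      have c2 := hN.cut4 (gg D f i false) ⟨a.1, a'.1, fun e => ha (Subtype.ext e), by
        rw [gg_in]; exact ha1, by rw [gg_in]; exact ha2⟩
        ⟨(D i).x, (D i).y, hxy, gg_x D f i false, gg_y D f i false⟩
      have d1 := gg_le D f h i true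
      have d2 := gg_le D f h i false
      rw [Fin.sum_univ_two] at d1 d2
      have e1 := mm_tf (f (px D i 0))
      have e2 := mm_tf (f (px D i 1))
      have e3 := mm_tf (f (qx D i 0))
      have e4 := mm_tf (f (qx D i 1))
      omega
    · refine single D f h i hN w fun u hu => ?_
      rw [hw]
      by_contra hne
      apply hF
      refine ⟨u, w, hu, ?_, hw⟩
      cases hfu : f (.inl ⟨i, u⟩)
      · rfl
      · rw [hfu] at hne
        exact absurd rfl hne
  · refine single D f h i hN v fun u hu => ?_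
    rw [hv]
    by_contra hne
    apply hT
    refine ⟨u, v, hu, ?_, hv⟩
    cases hfu : f (.inl ⟨i, u⟩)
    · rw [hfu] at hne
      exact absurd rfl hne
    · rfl

/-- the value on a copy which is not mixed -/
theorem not_mix {i : Fin 3} (hm : ¬ Mix D f i) (v w : Inner (D i)) :
    f (.inl ⟨i, v⟩) = f (.inl ⟨i, w⟩) := by
  by_contra hne
  apply hm
  cases h1 : f (.inl ⟨i, v⟩) <;> cases h2 : f (.inl ⟨i, w⟩)
  · rw [h1, h2] at hne
    exact absurd rfl hne
  · exact ⟨w, v, h2, h1⟩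
  · exact ⟨v, w, h1, h2⟩
  · rw [h1, h2] at hne
    exact absurd rfl hne

end

/-- no mixed copy -/
theorem case_one (D : Fin 3 → Pool.Agent.N516.SC.Pointed) (f : W D → Bool) (h : S_NB)
    (hm : ∀ i, ¬ Mix D f i) (hcut : cut (glue D) f ≤ 3) (β' : ∀ b : Bool, ∃ u v : W D, u ≠ v ∧
      f u = b ∧ f v = b) : False := by
  have hge := cut_ge D f h
  obtain ⟨s, hs⟩ : ∃ s : Fin 3 → Bool, ∀ i (v : Inner (D i)), f (.inl ⟨i, v⟩) = s i :=
    ⟨fun i => f (px D i 0), fun i v => not_mix D f (hm i) _ _⟩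
  have hp : ∀ i t, f (px D i t) = s i := fun i t => hs i _
  have hq : ∀ i t, f (qx D i t) = s i := fun i t => hs i _
  simp only [hp, hq, Fin.sum_univ_three, Fin.sum_univ_two] at hge
  have k1 : (0 : Fin 3) + 1 = 1 := rfl
  have k2 : (1 : Fin 3) + 1 = 2 := rfl
  have k3 : (2 : Fin 3) + 1 = 0 := rfl
  have k4 : (0 : Fin 3) - 1 = 2 := rfl
  have k5 : (1 : Fin 3) - 1 = 0 := rfl
  have k6 : (2 : Fin 3) - 1 = 1 := rfl
  rw [k1, k2, k3, k4, k5, k6] at hge
  obtain ⟨b, hb0, hb1, hb2, hb⟩ := chkA (s 0) (s 1) (s 2) (f (hu D)) (f (ce D 0)) (f (ce D 1))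
    (f (ce D 2)) (f (ar D 0 0)) (f (ar D 0 1)) (f (ar D 1 0)) (f (ar D 1 1)) (f (ar D 2 0))
    (f (ar D 2 1)) (by omega)
  have hsb : ∀ i, s i = b := by
    intro i
    fin_cases i
    · exact hb0
    · exact hb1
    · exact hb2
  have hsum : ∑ c : Ctr, mm (f (.inr c)) b ≤ 1 := by
    rw [Fintype.sum_option, Fintype.sum_prod_type]
    simp only [Fintype.sum_option, Fin.sum_univ_three, Fin.sum_univ_two]
    simp only [hu, ce, ar] at hb
    omega
  obtain ⟨u, v, huv, hu', hv'⟩ := β' (!b)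
  have hne : (!b) ≠ b := by cases b <;> decide
  rcases u with ⟨i, u⟩ | u
  · rw [hs, hsb] at hu'
    exact hne hu'.symm
  · rcases v with ⟨i, v⟩ | v
    · rw [hs, hsb] at hv'
      exact hne hv'.symm
    · have h2 := two_le (fun c : Ctr => mm (f (.inr c)) b) (a := u) (b := v)
        (fun e => huv (by rw [e]))
      beta_reduce at h2
      rw [hu', hv'] at h2
      have h3 : mm (!b) b = 1 := by cases b <;> rfl
      omega

/-- one mixed copy -/
theorem case_two (D : Fin 3 → Pool.Agent.N516.SC.Pointed) (f : W D → Bool) (h : S_NB) (hN : ∀ i, Nice (D i).G)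
    (i : Fin 3) (hmi : Mix D f i) (hcut : cut (glue D) f ≤ 3) (β' : ∀ b : Bool, ∃ u v : W D,
      u ≠ v ∧ f u = b ∧ f v = b) : False := by
  have hge := cut_ge D f h
  have hdi := mix_two D f h i (hN i) hmi
  -- the other copies
  have hm : ∀ j, j ≠ i → ¬ Mix D f j := by
    intro j hj hmj
    have h1 := mix_two D f h j (hN j) hmj
    have h2 := two_le (fun j => dd D f j) hj
    beta_reduce at h2
    omega
  obtain ⟨s, hs⟩ : ∃ s : Fin 3 → Bool, ∀ j, j ≠ i → ∀ v : Inner (D j), f (.inl ⟨j, v⟩) = s j :=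
    ⟨fun i => f (px D i 0), fun j hj v => not_mix D f (hm j hj) _ _⟩
  have hp : ∀ j t, j ≠ i → f (px D j t) = s j := fun j t hj => hs j hj _
  have hq : ∀ j t, j ≠ i → f (qx D j t) = s j := fun j t hj => hs j hj _
  have n1 : i + 1 ≠ i := by fin_cases i <;> decide
  have n2 : i + 2 ≠ i := by fin_cases i <;> decide
  have k1 : i + 1 + 1 = i + 2 := by fin_cases i <;> rfl
  have k2 : i + 2 + 1 = i := by fin_cases i <;> rfl
  have k3 : i - 1 = i + 2 := by fin_cases i <;> rfl
  have k4 : i + 1 - 1 = i := by fin_cases i <;> rfl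
  have k5 : i + 2 - 1 = i + 1 := by fin_cases i <;> rfl
  simp only [sum3 _ i, Fin.sum_univ_two, k1, k2, k3, k4, k5] at hge
  rw [hp (i + 1) 0 n1, hp (i + 1) 1 n1, hq (i + 2) 0 n2, hq (i + 2) 1 n2, hp (i + 2) 0 n2,
    hp (i + 2) 1 n2, hq (i + 1) 0 n1, hq (i + 1) 1 n1] at hge
  have hB := chkB (s (i + 1)) (s (i + 2)) (f (hu D)) (f (ce D i)) (f (ce D (i + 1)))
    (f (ce D (i + 2))) (f (ar D i 0)) (f (ar D i 1)) (f (ar D (i + 1) 0)) (f (ar D (i + 1) 1))
    (f (ar D (i + 2) 0)) (f (ar D (i + 2) 1)) (by omega)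
  obtain ⟨β, hβ⟩ : ∃ β, f (hu D) = β := ⟨_, rfl⟩
  rw [hβ] at hB hge
  have s1 : s (i + 1) = β := mm_zero (by omega)
  have s2 : s (i + 2) = β := mm_zero (by omega)
  have c0 : f (ce D i) = β := mm_zero (by omega)
  have c1 : f (ce D (i + 1)) = β := mm_zero (by omega)
  have c2 : f (ce D (i + 2)) = β := mm_zero (by omega)
  have a00 : f (ar D i 0) = β := mm_zero (by omega)
  have a01 : f (ar D i 1) = β := mm_zero (by omega)
  have a10 : f (ar D (i + 1) 0) = β := mm_zero (by omega)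
  have a11 : f (ar D (i + 1) 1) = β := mm_zero (by omega)
  have a20 : f (ar D (i + 2) 0) = β := mm_zero (by omega)
  have a21 : f (ar D (i + 2) 1) = β := mm_zero (by omega)
  -- all the vertices off copy `i` have the value `β`
  have cover : ∀ j : Fin 3, j = i ∨ j = i + 1 ∨ j = i + 2 := by
    intro j
    fin_cases i <;> fin_cases j <;> decide
  have hoff : ∀ u : W D, (∃ v : Inner (D i), u = .inl ⟨i, v⟩) ∨ f u = β := by
    rintro (⟨j, u⟩ | u)
    · rcases cover j with e | e | e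
      · left
        subst e
        exact ⟨u, rfl⟩
      · right
        subst e
        rw [hs _ n1, s1]
      · right
        subst e
        rw [hs _ n2, s2]
    · right
      rcases u with _ | ⟨j, _ | t⟩
      · exact hβ
      · rcases cover j with e | e | e
        · rw [e]; exact c0
        · rw [e]; exact c1
        · rw [e]; exact c2
      · rcases cover j with e | e | e
        · rw [e]
          fin_cases t
          · exact a00
          · exact a01
        · rw [e]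
          fin_cases t
          · exact a10
          · exact a11
        · rw [e]
          fin_cases t
          · exact a20
          · exact a21
  -- the values `!β` are in copy `i`
  obtain ⟨u, v, huv, hu', hv'⟩ := β' (!β)
  have hne : (!β) ≠ β := by cases β <;> decide
  obtain ⟨u', rfl⟩ : ∃ v : Inner (D i), u = .inl ⟨i, v⟩ := by
    rcases hoff u with h1 | h1
    · exact h1
    · exact absurd (hu'.symm.trans h1) hne
  obtain ⟨v', rfl⟩ : ∃ w : Inner (D i), v = .inl ⟨i, w⟩ := by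
    rcases hoff v with h1 | h1
    · exact h1
    · exact absurd (hv'.symm.trans h1) hne
  have huv' : u'.1 ≠ v'.1 := fun e => huv (by rw [Subtype.ext e])
  have hxy : (D i).x ≠ (D i).y := (((D i).adj_x _).2 (Or.inl rfl)).ne
  have g1 : gg D f i β u'.1 = !β := by rw [gg_in]; exact hu'
  have g2 : gg D f i β v'.1 = !β := by rw [gg_in]; exact hv'
  have g3 := gg_x D f i β
  have g4 := gg_y D f i β
  have hcut4 : 4 ≤ cut (D i).G (gg D f i β) := by
    cases β
    · exact (hN i).cut4 _ ⟨_, _, huv', g1, g2⟩ ⟨_, _, hxy, g3, g4⟩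
    · exact (hN i).cut4 _ ⟨_, _, hxy, g3, g4⟩ ⟨_, _, huv', g1, g2⟩
  have hle := gg_le D f h i β
  rw [Fin.sum_univ_two] at hle
  rw [a10, a11, a20, a21] at hge
  have m1 := mm_comm (f (px D i 0)) β
  have m2 := mm_comm (f (px D i 1)) β
  have m3 := mm_comm (f (qx D i 0)) β
  have m4 := mm_comm (f (qx D i 1)) β
  omega

/-- **`glue D` has no small cuts.** -/
theorem t_CUT (h : Pool.Agent.N516.SC.S_NB) : Pool.Agent.N516.SC.S_CUT := by
  intro D hN f hT hF
  by_contra hcut
  push Not at hcut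
  have β' : ∀ b : Bool, ∃ u v : W D, u ≠ v ∧ f u = b ∧ f v = b := by
    intro b
    cases b
    · exact hF
    · exact hT
  by_cases hm : ∃ i, Mix D f i
  · obtain ⟨i, hi⟩ := hm
    exact case_two D f h hN i hi (by omega) β'
  · push Not at hm
    exact case_one D f h hm (by omega) β'

end Pool.Agent.N72.SC
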